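import Mathlib

set_option autoImplicit false

open Filter Topology
open scoped ENNReal BoundedContinuousFunction

namespace Pool.Agent.Results.MP_c26838_an.Counterexample

def SR1 (R : Type) [Ring R] [Norm R] : Prop :=
  ∀ x : R, ∀ ε > 0, ∃ u : R, IsUnit u ∧ ‖x - u‖ < ε

section
variable (A : ℕ → Type) [∀ n, NormedRing (A n)] [∀ n, NormOneClass (A n)]

abbrev Linf : Type := lp A ∞

def c0 : Ideal (Linf A) where
  carrier := {a | Tendsto (fun n => ‖a n‖) atTop (𝓝 0)}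
  add_mem' := fun {a b} ha hb => squeeze_zero (fun _ => norm_nonneg _)
    (fun n => norm_add_le (a n) (b n)) (by simpa using Tendsto.add ha hb)
  zero_mem' := by simp
  smul_mem' := fun c a ha => squeeze_zero (fun _ => norm_nonneg _)
    (fun n => (norm_mul_le (c n) (a n)).trans (mul_le_mul_of_nonneg_right
      (lp.norm_apply_le_norm ENNReal.top_ne_zero c n) (norm_nonneg _)))
    (by simpa using Tendsto.const_mul ‖c‖ ha)

instance : (c0 A).IsTwoSided := ⟨fun {a} c ha => squeeze_zero (fun _ => norm_nonneg _)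
    (fun n => (norm_mul_le (a n) (c n)).trans (mul_le_mul_of_nonneg_left
      (lp.norm_apply_le_norm ENNReal.top_ne_zero c n) (norm_nonneg _)))
    (by simpa using Tendsto.mul_const ‖c‖ ha)⟩

def Asy : Type := Linf A ⧸ c0 A

noncomputable instance : Ring (Asy A) := Ideal.Quotient.ring (c0 A)

noncomputable instance : Norm (Asy A) :=
  (Submodule.Quotient.seminormedAddCommGroup (c0 A)).toNorm

end

section
variable (B : Type) [NormedRing B] [NormedAlgebra ℂ B]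

def Ren (_ : ℕ) : Type := ℂ × B

noncomputable instance (n : ℕ) : Ring (Ren B n) := inferInstanceAs (Ring (ℂ × B))

noncomputable instance (n : ℕ) : Algebra ℂ (Ren B n) := inferInstanceAs (Algebra ℂ (ℂ × B))

noncomputable def phi (n : ℕ) : Ren B n →ₗ[ℂ] WithLp 1 (ℂ × B) where
  toFun a := WithLp.toLp 1 (a.1, ((n : ℂ) + 1) • (a.2 - a.1 • (1 : B)))
  map_add' a b := by
    rw [← WithLp.toLp_add]
    congr 1
    refine Prod.ext rfl ?_
    show _ • (a.2 + b.2 - (a.1 + b.1) • (1 : B)) = _ • _ + _ • _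
    module
  map_smul' c a := by
    rw [RingHom.id_apply, ← WithLp.toLp_smul]
    congr 1
    refine Prod.ext rfl ?_
    show _ • (c • a.2 - (c * a.1) • (1 : B)) = c • _ • _
    module

lemma ne0 (n : ℕ) : (n : ℂ) + 1 ≠ 0 := by exact_mod_cast n.succ_ne_zero

lemma phi_inj (n : ℕ) : Function.Injective (phi B n) := fun a b h => by
  have h' := WithLp.toLp_injective 1 h
  have h1 : a.1 = b.1 := (Prod.ext_iff.1 h').1
  have h2 := smul_right_injective B (ne0 n) (congrArg Prod.snd h')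
  rw [h1] at h2
  exact Prod.ext h1 (sub_left_injective h2)

lemma phi_surj (n : ℕ) : Function.Surjective (phi B n) := fun y =>
  ⟨(y.fst, ((n : ℂ) + 1)⁻¹ • y.snd + y.fst • (1 : B)), by
    show WithLp.toLp 1 (y.fst, _ • (_ + _ - y.fst • (1 : B))) = y
    rw [add_sub_cancel_right, smul_inv_smul₀ (ne0 n)]
    rfl⟩

noncomputable instance (n : ℕ) : NormedAddCommGroup (Ren B n) :=
  NormedAddCommGroup.induced _ _ (phi B n) (phi_inj B n)

lemma nrm (n : ℕ) (a : Ren B n) : ‖a‖ = ‖a.1‖ + (n + 1) * ‖a.2 - a.1 • (1 : B)‖ := by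
  show ‖phi B n a‖ = _
  rw [WithLp.prod_norm_eq_of_L1]
  show ‖a.1‖ + ‖((n : ℂ) + 1) • (a.2 - a.1 • (1 : B))‖ = _
  rw [norm_smul]
  congr 2
  exact_mod_cast Complex.norm_natCast (n + 1)

noncomputable instance (n : ℕ) : NormedRing (Ren B n) where
  dist_eq := NormedAddCommGroup.dist_eq
  norm_mul_le a b := by
    rw [nrm, nrm, nrm]
    set x := a.2 - a.1 • (1 : B) with hx
    set y := b.2 - b.1 • (1 : B) with hy
    have e : (a * b).2 - (a * b).1 • (1 : B) = a.1 • y + b.1 • x + x * y := by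
      show a.2 * b.2 - (a.1 * b.1) • (1 : B) = _
      simp only [hx, hy, mul_sub, sub_mul, smul_mul_assoc, mul_smul_comm, one_mul, mul_one]
      module
    have e1 : ‖(a * b).1‖ = ‖a.1‖ * ‖b.1‖ := norm_mul a.1 b.1
    have h : ‖a.1 • y + b.1 • x + x * y‖ ≤ ‖a.1‖ * ‖y‖ + ‖b.1‖ * ‖x‖ + ‖x‖ * ‖y‖ :=
      norm_add₃_le.trans (by rw [norm_smul, norm_smul]; linarith [norm_mul_le x y])
    rw [e, e1]
    have h0 : (0 : ℝ) ≤ n := n.cast_nonneg
    have h1 : 0 ≤ n * (n + 1) * (‖x‖ * ‖y‖) := by positivity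
    nlinarith [mul_le_mul_of_nonneg_left h (show (0 : ℝ) ≤ n + 1 by linarith)]

noncomputable instance (n : ℕ) : NormedAlgebra ℂ (Ren B n) where
  norm_smul_le c a := by
    show ‖phi B n (c • a)‖ ≤ ‖c‖ * ‖phi B n a‖
    rw [map_smul, norm_smul]

instance (n : ℕ) : NormOneClass (Ren B n) := ⟨by
  rw [nrm]
  show ‖(1 : ℂ)‖ + _ * ‖(1 : B) - (1 : ℂ) • (1 : B)‖ = 1
  simp⟩

instance [CompleteSpace B] (n : ℕ) : CompleteSpace (Ren B n) := by
  have h : Isometry (phi B n) := AddMonoidHomClass.isometry_of_norm _ fun _ => rfl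
  exact h.isUniformInducing.completeSpace (by
    rw [(phi_surj B n).range_eq]; exact isComplete_univ)

lemma down [NormOneClass B] (n : ℕ) (h : SR1 (Ren B n)) : SR1 B := fun x ε hε => by
  obtain ⟨u, hu, h⟩ := h ((0, x) : ℂ × B) ε hε
  refine ⟨u.2, hu.map (RingHom.snd ℂ B), lt_of_le_of_lt ?_ h⟩
  set a : Ren B n := (show Ren B n from ((0, x) : ℂ × B)) - u
  rw [nrm]
  have e : x - u.2 = (a.2 - a.1 • (1 : B)) + a.1 • (1 : B) := (sub_add_cancel a.2 _).symm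
  have := norm_add_le (a.2 - a.1 • (1 : B)) (a.1 • (1 : B))
  rw [norm_smul, norm_one, mul_one, ← e] at this
  nlinarith [norm_nonneg (a.2 - a.1 • (1 : B)), n.cast_nonneg (α := ℝ)]

lemma inv_ex [CompleteSpace B] [NormOneClass B] (l : ℂ) (y : B) (δ : ℝ) (hδ : 0 < δ)
    (hl : δ ≤ ‖l‖) (hy : ‖y - l • (1 : B)‖ ≤ δ / 2) : ∃ w : B, y * w = 1 ∧ w * y = 1 ∧
      ‖w - l⁻¹ • (1 : B)‖ ≤ 2 / δ ^ 2 * ‖y - l • (1 : B)‖ := by
  have hl0 : l ≠ 0 := norm_pos_iff.1 (hδ.trans_le hl)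
  set x := y - l • (1 : B) with hx
  have hi : ‖l⁻¹‖ ≤ δ⁻¹ := by rw [norm_inv]; exact inv_anti₀ hδ hl
  have ht : ‖-(l⁻¹ • x)‖ ≤ 1 / 2 := by
    rw [norm_neg, norm_smul]
    calc ‖l⁻¹‖ * ‖x‖ ≤ δ⁻¹ * (δ / 2) := by gcongr
      _ = 1 / 2 := by field_simp
  set u := Units.oneSub (-(l⁻¹ • x)) (ht.trans_lt (by norm_num))
  have hu : (u : B) = l⁻¹ • y := by
    show 1 - -(l⁻¹ • x) = _
    rw [hx, smul_sub, inv_smul_smul₀ hl0]
    abel
  have hy' : y = l • (u : B) := by rw [hu, smul_inv_smul₀ hl0]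
  set v : B := ↑u⁻¹
  have e : v - 1 = v * -(l⁻¹ • x) := by
    have : v * (1 - -(l⁻¹ • x)) = 1 := u.inv_mul
    rw [mul_sub, mul_one] at this
    rw [← this]
    abel
  have h1 : ‖v - 1‖ ≤ ‖v‖ * ‖-(l⁻¹ • x)‖ := e ▸ norm_mul_le _ _
  have h2 : ‖v‖ ≤ 2 := by
    have := norm_sub_norm_le v 1
    rw [norm_one] at this
    nlinarith [norm_nonneg v]
  refine ⟨l⁻¹ • v, ?_, ?_, ?_⟩
  · rw [hy', smul_mul_smul_comm, mul_inv_cancel₀ hl0, one_smul, u.mul_inv]
  · rw [hy', smul_mul_smul_comm, inv_mul_cancel₀ hl0, one_smul, u.inv_mul]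
  · rw [← smul_sub, norm_smul]
    rw [norm_neg, norm_smul] at h1
    calc ‖l⁻¹‖ * ‖v - 1‖ ≤ δ⁻¹ * (2 * (δ⁻¹ * ‖x‖)) := by
          refine mul_le_mul hi (h1.trans ?_) (norm_nonneg _) (by positivity)
          gcongr
      _ = _ := by field_simp

lemma up [CompleteSpace B] [NormOneClass B] : SR1 (Asy (Ren B)) := fun x ε hε => by
  classical
  obtain ⟨a, rfl⟩ := Ideal.Quotient.mk_surjective (I := c0 (Ren B)) x
  set δ := ε / 3 with hδ
  have δ0 : 0 < δ := by positivity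
  have hC : ∀ n, ‖(a n).1‖ + (n + 1) * ‖(a n).2 - (a n).1 • (1 : B)‖ ≤ ‖a‖ := fun n =>
    nrm B n (a n) ▸ lp.norm_apply_le_norm ENNReal.top_ne_zero a n
  have hl : ∀ n, ∃ c : ℂ, ‖c‖ ≤ 2 * δ ∧ δ ≤ ‖(a n).1 + c‖ := fun n => by
    by_cases h : δ ≤ ‖(a n).1‖
    · exact ⟨0, by simpa using δ0.le, by simpa using h⟩
    · refine ⟨δ - (a n).1, (norm_sub_le _ _).trans ?_, ?_⟩
      · rw [Complex.norm_real, Real.norm_of_nonneg δ0.le]; linarith [not_le.1 h]
      · rw [add_sub_cancel, Complex.norm_real, Real.norm_of_nonneg δ0.le]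
  choose c hc hc' using hl
  have hn : ∀ n, ‖c n • (1 : Ren B n)‖ ≤ 2 * δ := fun n => by
    rw [norm_smul, norm_one, mul_one]; exact hc n
  set d : Linf (Ren B) := ⟨fun n => c n • (1 : Ren B n), memℓp_infty ⟨2 * δ, by
    rintro _ ⟨n, rfl⟩; exact hn n⟩⟩ with hd
  have e1 : ∀ n, ((a + d) n).1 = (a n).1 + c n := fun n => by
    show (a n).1 + c n * 1 = _
    rw [mul_one]
  have e2 : ∀ n, ((a + d) n).2 - ((a n).1 + c n) • (1 : B) = (a n).2 - (a n).1 • (1 : B) :=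
    fun n => by
    show (a n).2 + c n • (1 : B) - _ = _
    module
  have hw : ∀ n : ℕ, ∃ w : Ren B n, ‖w‖ ≤ δ⁻¹ + 2 / δ ^ 2 * ‖a‖ ∧
      (‖a‖ ≤ (n + 1) * (δ / 2) → (a + d) n * w = 1 ∧ w * (a + d) n = 1) := fun n => by
    by_cases h : ‖a‖ ≤ (n + 1) * (δ / 2)
    · have h0 : (0 : ℝ) < n + 1 := by positivity
      have h1 := hC n
      obtain ⟨w, w1, w2, w3⟩ := inv_ex B ((a n).1 + c n) ((a + d) n).2 δ δ0 (hc' n) (by
        rw [e2]
        exact le_of_mul_le_mul_left (by linarith [norm_nonneg (a n).1]) h0)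
      have hl0 : (a n).1 + c n ≠ 0 := norm_pos_iff.1 (δ0.trans_le (hc' n))
      refine ⟨((((a n).1 + c n)⁻¹, w) : ℂ × B), ?_, fun _ => ⟨Prod.ext ?_ w1, Prod.ext ?_ w2⟩⟩
      · refine (nrm B n _).trans_le ?_
        rw [e2] at w3
        have hi : ‖((a n).1 + c n)⁻¹‖ ≤ δ⁻¹ := by rw [norm_inv]; exact inv_anti₀ δ0 (hc' n)
        have h3 : (0 : ℝ) ≤ 2 / δ ^ 2 := by positivity
        have h4 := mul_le_mul_of_nonneg_left w3 h0.le
        have h5 := mul_le_mul_of_nonneg_left (show (n + 1) * ‖(a n).2 - (a n).1 • (1 : B)‖ ≤ ‖a‖ by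
          linarith [norm_nonneg (a n).1]) h3
        show ‖((a n).1 + c n)⁻¹‖ + (n + 1) * ‖w - ((a n).1 + c n)⁻¹ • (1 : B)‖ ≤ _
        nlinarith
      · show ((a + d) n).1 * _ = 1
        rw [e1, mul_inv_cancel₀ hl0]
      · show _ * ((a + d) n).1 = 1
        rw [e1, inv_mul_cancel₀ hl0]
    · exact ⟨0, by rw [norm_zero]; positivity, fun h' => absurd h' h⟩
  choose w hw1 hw2 using hw
  set v : Linf (Ren B) := ⟨w, memℓp_infty ⟨_, by rintro _ ⟨n, rfl⟩; exact hw1 n⟩⟩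
  have hev : ∀ᶠ n : ℕ in atTop, ‖a‖ ≤ (n + 1) * (δ / 2) :=
    ((tendsto_atTop_add_const_right _ 1 tendsto_natCast_atTop_atTop).atTop_mul_const
      (half_pos δ0)).eventually_ge_atTop _
  have k : ∀ z : Linf (Ren B), (∀ᶠ n in atTop, z n = 1) → Ideal.Quotient.mk (c0 (Ren B)) z = 1 :=
    fun z hz => by
    rw [← map_one (Ideal.Quotient.mk (c0 (Ren B))), Ideal.Quotient.eq]
    refine tendsto_const_nhds.congr' ?_
    filter_upwards [hz] with n hn
    show 0 = ‖z n - 1‖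
    rw [hn, sub_self, norm_zero]
  refine ⟨Ideal.Quotient.mk (c0 (Ren B)) (a + d), ⟨⟨_, Ideal.Quotient.mk (c0 (Ren B)) v,
    (map_mul _ _ _).symm.trans (k _ (hev.mono fun n h => (hw2 n h).1)),
    (map_mul _ _ _).symm.trans (k _ (hev.mono fun n h => (hw2 n h).2))⟩, rfl⟩, ?_⟩
  have h1 : ‖a - (a + d)‖ ≤ 2 * δ := by
    rw [sub_add_cancel_left, norm_neg]
    exact lp.norm_le_of_forall_le (by positivity) hn
  exact lt_of_le_of_lt (Submodule.Quotient.norm_mk_le (c0 (Ren B)) (a - (a + d))) (by linarith)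

end

lemma not_sr1 (B : Type) [NormedRing B] [CompleteSpace B] [NormOneClass B] (S R : B)
    (h : R * S = 1) (hR : ‖R‖ ≤ 1) (hS : ∀ v, S * v ≠ 1) : ¬ SR1 B := fun H => by
  obtain ⟨_, ⟨u, rfl⟩, hu⟩ := H S (1 / 2) (by norm_num)
  set v : B := ↑u⁻¹
  have e : S * v = 1 - -((S - u) * v) := by
    rw [sub_mul, u.mul_inv]; abel
  have h1 : ‖-((S - u) * v)‖ ≤ ‖S - u‖ * ‖v‖ := by rw [norm_neg]; exact norm_mul_le _ _
  have h2 : ‖v‖ ≤ ‖S * v‖ := by
    have := norm_mul_le R (S * v)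
    rw [← mul_assoc, h, one_mul] at this
    nlinarith [norm_nonneg (S * v)]
  have h3 : ‖S * v‖ ≤ 1 + ‖-((S - u) * v)‖ := by
    rw [e]; simpa using norm_sub_le 1 (-((S - u) * v))
  have h4 : ‖-((S - u) * v)‖ < 1 := by nlinarith [norm_nonneg (S - u), norm_nonneg v]
  refine hS (v * ↑(Units.oneSub _ h4)⁻¹) ?_
  rw [← mul_assoc, e]
  exact (Units.oneSub _ h4).mul_inv

abbrev B0 : Type := (ℕ →ᵇ ℂ) →L[ℂ] (ℕ →ᵇ ℂ)

instance : Nontrivial (ℕ →ᵇ ℂ) := ⟨0, 1, fun h => by simpa using DFunLike.congr_fun h 0⟩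

lemma B0_not : ¬ SR1 B0 := by
  refine not_sr1 B0 (BoundedContinuousFunction.compContinuousCLM ℂ ℂ ⟨Nat.pred, by fun_prop⟩)
    (BoundedContinuousFunction.compContinuousCLM ℂ ℂ ⟨Nat.succ, by fun_prop⟩) rfl
    (ContinuousLinearMap.opNorm_le_bound _ zero_le_one fun x => by
      rw [one_mul]; exact BoundedContinuousFunction.norm_compContinuous_le x _) fun v h => ?_
  set f : ℕ →ᵇ ℂ := BoundedContinuousFunction.ofNormedAddCommGroupDiscrete
    (fun n => if n = 0 then 1 else 0) 1 fun n => by split_ifs <;> simp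
  have h0 : v f 0 = f 0 := congrArg (fun T : B0 => T f 0) h
  have h1 : v f 0 = f 1 := congrArg (fun T : B0 => T f 1) h
  simp [f, h0] at h1

theorem result : ∃ (A : ℕ → Type) (_ : ∀ n, NormedRing (A n)) (_ : ∀ n, NormedAlgebra ℂ (A n))
    (_ : ∀ n, CompleteSpace (A n)) (_ : ∀ n, NormOneClass (A n)),
    SR1 (Asy A) ∧ ∀ n, ¬ SR1 (A n) :=
  ⟨Ren B0, inferInstance, inferInstance, inferInstance, inferInstance, up B0,
    fun n h => B0_not (down B0 n h)⟩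

end Pool.Agent.Results.MP_c26838_an.Counterexample
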